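import Pool.Agent.H14e.PS
import Pool.Agent.H14e.Fi

/-!
# MP_5162e9_co: the h*-vector of `P_n` is nonincreasing on a long final segment

The statement is about the numbers `revh n m`, the coefficients of `(1 - t)^(d+1)` times the
series of the numbers of interior lattice points.  By Ehrhart-Macdonald reciprocity
`revh n m` is `h*_(d+1-m)`.
-/

namespace Pool.Agent.Results.MP_5162e9_co.FinalSegment

open Pool.Agent.H14e PowerSeries

/-- The dimension of `P_n`. -/
noncomputable def dimP (n : ℕ) : ℕ := Module.finrank ℝ (vectorSpan ℝ (Pn n))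

/-- The number of integer matrices in the relative interior of `m P_n`. -/
noncomputable def ehrInt (n m : ℕ) : ℕ := Nat.card (LI n m)

/-- The series `∑_{m ≥ 1} ehrInt n m t^m`. -/
noncomputable def intSeries (n : ℕ) : PowerSeries ℤ :=
  PowerSeries.mk (fun m => if m = 0 then 0 else (ehrInt n m : ℤ))

/-- The `m`-th coefficient of `(1 - t)^(d+1)` times the series of interior lattice points. -/
noncomputable def revh (n m : ℕ) : ℤ :=
  PowerSeries.coeff m ((1 - PowerSeries.X) ^ (dimP n + 1) * intSeries n)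

theorem dimP_le (n : ℕ) : dimP n ≤ n ^ 2 := by
  have h := Submodule.finrank_le (vectorSpan ℝ (Pn n))
  have h2 : Module.finrank ℝ (Matrix (Fin n) (Fin n) ℝ) = n ^ 2 := by
    rw [Module.finrank_matrix]
    simp [pow_two]
  rw [h2] at h
  exact h

theorem ratio (n m c : ℕ) (hm1 : 1 ≤ m) (hc : 1 ≤ c) (hn : 12 * c ^ 2 ≤ n)
    (hm : m + c ≤ n + c * c) :
    (dimP n + 2) * Nat.card (LI n m) ≤ Nat.card (LI n (m + 1)) := by
  have h1 := main_count_int n m c hm1 hc hm
  have h2 := invol_count n c hc hn
  have h3 : (dimP n + 2) * Nat.card (LI n m) * c ^ n ≤ Nat.card (LI n (m + 1)) * c ^ n := by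
    calc (dimP n + 2) * Nat.card (LI n m) * c ^ n
        ≤ (n ^ 2 + 2) * Nat.card (LI n m) * c ^ n := by
          apply Nat.mul_le_mul_right
          apply Nat.mul_le_mul_right
          have := dimP_le n
          omega
      _ = Nat.card (LI n m) * ((n ^ 2 + 2) * c ^ n) := by ring
      _ ≤ _ := Nat.mul_le_mul_left _ h2
      _ ≤ _ := h1
  exact Nat.le_of_mul_le_mul_right h3 (by positivity)

theorem coeff_int (n m : ℕ) (hm : 1 ≤ m) :
    PowerSeries.coeff m (intSeries n) = (Nat.card (LI n m) : ℤ) := by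
  rw [intSeries, PowerSeries.coeff_mk, if_neg (by omega), ehrInt]

theorem coeff_int_zero (n : ℕ) : PowerSeries.coeff 0 (intSeries n) = 0 := by
  rw [intSeries, PowerSeries.coeff_mk, if_pos rfl]

theorem li_empty (n m : ℕ) (hm1 : 1 ≤ m) (hmn : m < n) : Nat.card (LI n m) = 0 := by
  have : LI n m = ∅ := by
    rw [Set.eq_empty_iff_forall_notMem]
    intro A hA
    have h1 := li_pos hm1 hA
    have h2 := (lp_props (li_sub n m hA)).2 ⟨0, by omega⟩
    have h3 : ∑ _j : Fin n, (1 : ℝ) ≤ ∑ j, A ⟨0, by omega⟩ j :=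
      Finset.sum_le_sum (fun j _ => h1 _ j)
    rw [h2] at h3
    simp only [Finset.sum_const, Finset.card_univ, Fintype.card_fin, nsmul_eq_mul, mul_one] at h3
    have h4 : n ≤ m := by exact_mod_cast h3
    omega
  rw [this]
  simp

theorem revh_zero (n m : ℕ) (hmn : m < n) : revh n m = 0 := by
  unfold revh
  rw [PowerSeries.coeff_mul]
  apply Finset.sum_eq_zero
  intro q hq
  have hq' := Finset.HasAntidiagonal.mem_antidiagonal.mp hq
  have : PowerSeries.coeff q.2 (intSeries n) = 0 := by
    rcases Nat.eq_zero_or_pos q.2 with h | h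
    · rw [h, coeff_int_zero]
    · rw [coeff_int n _ h, li_empty n _ h (by omega)]
      rfl
  rw [this, mul_zero]

theorem mono_of_ratio (n J : ℕ)
    (hr : ∀ m < J, 1 ≤ m → (dimP n + 2) * Nat.card (LI n m) ≤ Nat.card (LI n (m + 1)))
    (i j : ℕ) (hij : i ≤ j) (hj : j ≤ J) : revh n i ≤ revh n j := by
  have step : ∀ k, k + 1 ≤ J → revh n k ≤ revh n (k + 1) := by
    intro k hk
    have key := ps_nonneg (dimP n + 2) (intSeries n) (k + 1)
      (by
        intro m _
        rcases Nat.eq_zero_or_pos m with h | h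
        · subst h; rw [coeff_int_zero]
        · rw [coeff_int n m h]
          exact Int.natCast_nonneg _)
      (by
        intro m hm
        rcases Nat.eq_zero_or_pos m with h | h
        · subst h
          rw [coeff_int_zero, coeff_int n (0 + 1) (by omega), mul_zero]
          exact Int.natCast_nonneg _
        · rw [coeff_int n m h, coeff_int n (m + 1) (by omega)]
          exact_mod_cast hr m (by omega) h)
      (k + 1) le_rfl
    have e : (1 - X : PowerSeries ℤ) ^ (dimP n + 2) * intSeries n
        = (1 - X) * ((1 - X) ^ (dimP n + 1) * intSeries n) := by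
      rw [← mul_assoc, ← pow_succ']
    rw [e, coeff_succ_one_sub] at key
    unfold revh
    linarith
  induction j, hij using Nat.le_induction with
  | base => exact le_rfl
  | succ j hij ih => exact (ih (by omega)).trans (step j (by omega))

theorem revh_self (n : ℕ) (hn : Even n) (h2 : 2 ≤ n) : revh n n = 1 := by
  unfold revh
  rw [PowerSeries.coeff_mul, Finset.sum_eq_single (0, n)]
  · rw [coeff_int n n (by omega), li_self hn h2]
    simp
  · intro q hq hne
    have hq' := Finset.HasAntidiagonal.mem_antidiagonal.mp hq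
    have h1 : q.2 < n := by
      by_contra hcon
      apply hne
      apply Prod.ext
      · show q.1 = 0
        omega
      · show q.2 = n
        omega
    have : PowerSeries.coeff q.2 (intSeries n) = 0 := by
      rcases Nat.eq_zero_or_pos q.2 with h | h
      · rw [h, coeff_int_zero]
      · rw [coeff_int n _ h, li_empty n _ h h1]
        rfl
    rw [this, mul_zero]
  · intro h
    exact absurd (Finset.HasAntidiagonal.mem_antidiagonal.mpr (by simp)) h

/-- The numbers `revh n m` vanish for `m < n`, the `n`-th is `1` for even `n`, and they are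
nondecreasing in `m` up to `J` for every `J` with `7 (n - 1 + 4(J - n)) log (n² + 2) ≤ (n - 1)²`
(so for `J - n` up to about `n² / (56 log n)`), for every `J ≤ 2n - 1 - 6 log (n² + 2)`, and for
every `J ≤ n + c(c-1) + 1` with `12 c² ≤ n`. -/
theorem result :
    (∀ n m : ℕ, m < n → revh n m = 0) ∧
    (∀ n : ℕ, Even n → 2 ≤ n → revh n n = 1) ∧
    (∀ n J : ℕ, ((2 ≤ n ∧ 7 * ((n : ℝ) - 1 + 4 * ((J : ℝ) - n)) * Real.log ((n : ℝ) ^ 2 + 2) ≤
        ((n : ℝ) - 1) ^ 2) ∨
      (J : ℝ) + 1 + 6 * Real.log ((n : ℝ) ^ 2 + 2) ≤ 2 * n ∨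
      ∃ c : ℕ, 1 ≤ c ∧ 12 * c ^ 2 ≤ n ∧ J ≤ n + c * (c - 1) + 1) →
      ∀ i j : ℕ, i ≤ j → j ≤ J → revh n i ≤ revh n j) := by
  refine ⟨revh_zero, revh_self, ?_⟩
  intro n J h i j hij hj
  apply mono_of_ratio n J _ i j hij hj
  intro m hm hm1
  have hlog : 0 ≤ Real.log ((n : ℝ) ^ 2 + 2) :=
    Real.log_nonneg (by nlinarith [sq_nonneg (n : ℝ)])
  have hmJ : (m : ℝ) + 1 ≤ J := by exact_mod_cast hm
  rcases h with ⟨hn, h⟩ | h | ⟨c, hc, hn, hJ⟩
  · have h1 := li_ratio2 n m hn hm1 (by
      refine le_trans (mul_le_mul_of_nonneg_right ?_ hlog) h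
      linarith)
    refine le_trans (Nat.mul_le_mul_right _ ?_) h1
    have := dimP_le n
    omega
  · have hn : 0 < n := by
      have h0 : (0 : ℝ) ≤ J := Nat.cast_nonneg J
      have : (0 : ℝ) < n := by linarith
      exact_mod_cast this
    have h1 := li_ratio n m hn hm1 (by linarith)
    refine le_trans (Nat.mul_le_mul_right _ ?_) h1
    have := dimP_le n
    omega
  · have hcc : c * (c - 1) + c = c * c := by
      obtain ⟨t, rfl⟩ : ∃ t, c = t + 1 := ⟨c - 1, by omega⟩
      simp only [Nat.add_sub_cancel]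
      ring
    exact ratio n m c hm1 hc hn (by omega)

end Pool.Agent.Results.MP_5162e9_co.FinalSegment
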