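import Pool.Agent.H14e.PS
import Pool.Agent.H14e.Fi

/-!
# MP_5162e9_co: the h*-vector of `P_n` is nondecreasing on a long initial segment
-/

namespace Pool.Agent.Results.MP_5162e9_co.InitialSegment

open Pool.Agent.H14e PowerSeries

/-- The dimension of `P_n`. -/
noncomputable def dimP (n : ℕ) : ℕ := Module.finrank ℝ (vectorSpan ℝ (Pn n))

/-- `L(m)`, the number of integer matrices in `m P_n`. -/
noncomputable def ehr (n m : ℕ) : ℕ := Nat.card (LP n m)

/-- The Ehrhart series `1 + ∑_{m ≥ 1} L(m) t^m`. -/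
noncomputable def ehrSeries (n : ℕ) : PowerSeries ℤ :=
  PowerSeries.mk (fun m => if m = 0 then 1 else (ehr n m : ℤ))

/-- The coefficient `h*_j`: the `j`-th coefficient of `(1 - t)^(d+1)` times the Ehrhart series. -/
noncomputable def hstar (n j : ℕ) : ℤ :=
  PowerSeries.coeff j ((1 - PowerSeries.X) ^ (dimP n + 1) * ehrSeries n)

theorem dimP_le (n : ℕ) : dimP n ≤ n ^ 2 := by
  have h := Submodule.finrank_le (vectorSpan ℝ (Pn n))
  have h2 : Module.finrank ℝ (Matrix (Fin n) (Fin n) ℝ) = n ^ 2 := by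
    rw [Module.finrank_matrix]
    simp [pow_two]
  rw [h2] at h
  exact h

theorem lp_zero_card (n : ℕ) : Nat.card (LP n 0) = 1 := by
  have hne : (Pn n).Nonempty := by
    refine ⟨pmat (1 : Equiv.Perm (Fin n)), ?_⟩
    exact subset_convexHull ℝ _ (pmat_mem (σ := (1 : Equiv.Perm (Fin n))) (fun x => rfl))
  have : LP n 0 = {0} := by
    ext A
    constructor
    · rintro ⟨⟨B, _, rfl⟩, _⟩
      simp
    · intro h
      rw [Set.mem_singleton_iff] at h
      subst h
      refine ⟨?_, fun i j => ⟨0, by simp⟩⟩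
      obtain ⟨B, hB⟩ := hne
      exact ⟨B, hB, by simp⟩
  rw [this]
  simp

theorem ratio (n m c : ℕ) (hc : 1 ≤ c) (hn : 12 * c ^ 2 ≤ n) (hm : m + c ≤ c * c) :
    (dimP n + 2) * Nat.card (LP n m) ≤ Nat.card (LP n (m + 1)) := by
  have h1 := main_count n m c hc (by omega)
  have h2 := invol_count n c hc hn
  have h3 : (dimP n + 2) * Nat.card (LP n m) * c ^ n ≤ Nat.card (LP n (m + 1)) * c ^ n := by
    calc (dimP n + 2) * Nat.card (LP n m) * c ^ n
        ≤ (n ^ 2 + 2) * Nat.card (LP n m) * c ^ n := by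
          apply Nat.mul_le_mul_right
          apply Nat.mul_le_mul_right
          have := dimP_le n
          omega
      _ = Nat.card (LP n m) * ((n ^ 2 + 2) * c ^ n) := by ring
      _ ≤ _ := Nat.mul_le_mul_left _ h2
      _ ≤ _ := h1
  exact Nat.le_of_mul_le_mul_right h3 (by positivity)

theorem coeff_ehr (n m : ℕ) :
    PowerSeries.coeff m (ehrSeries n) = (Nat.card (LP n m) : ℤ) := by
  rw [ehrSeries, PowerSeries.coeff_mk]
  by_cases h : m = 0
  · subst h
    rw [lp_zero_card]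
    simp
  · rw [if_neg h, ehr]

theorem mono_of_ratio (n J : ℕ)
    (hr : ∀ m < J, (dimP n + 2) * Nat.card (LP n m) ≤ Nat.card (LP n (m + 1)))
    (i j : ℕ) (hij : i ≤ j) (hj : j ≤ J) : hstar n i ≤ hstar n j := by
  have step : ∀ k, k + 1 ≤ J → hstar n k ≤ hstar n (k + 1) := by
    intro k hk
    have key := ps_nonneg (dimP n + 2) (ehrSeries n) (k + 1)
      (by
        intro m _
        rw [coeff_ehr]
        exact Int.natCast_nonneg _)
      (by
        intro m hm
        rw [coeff_ehr, coeff_ehr]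
        exact_mod_cast hr m (by omega))
      (k + 1) le_rfl
    have e : (1 - X : PowerSeries ℤ) ^ (dimP n + 2) * ehrSeries n
        = (1 - X) * ((1 - X) ^ (dimP n + 1) * ehrSeries n) := by
      rw [← mul_assoc, ← pow_succ']
    rw [e, coeff_succ_one_sub] at key
    unfold hstar
    linarith
  induction j, hij using Nat.le_induction with
  | base => exact le_rfl
  | succ j hij ih => exact (ih (by omega)).trans (step j (by omega))

/-- The h*-vector of `P_n` satisfies `h*_0 ≤ h*_1 ≤ ... ≤ h*_J` for every `J` with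
`7 (n - 1 + 4J) log (n² + 2) ≤ (n - 1)²` (so for `J` up to about `n² / (56 log n)`), for every
`J ≤ n - 1 - 6 log (n² + 2)`, and for every `J ≤ c(c-1) + 1` with `12 c² ≤ n`. -/
theorem result (n J : ℕ)
    (h : (2 ≤ n ∧ 7 * ((n : ℝ) - 1 + 4 * J) * Real.log ((n : ℝ) ^ 2 + 2) ≤ ((n : ℝ) - 1) ^ 2) ∨
      (J : ℝ) + 1 + 6 * Real.log ((n : ℝ) ^ 2 + 2) ≤ n ∨
      ∃ c : ℕ, 1 ≤ c ∧ 12 * c ^ 2 ≤ n ∧ J ≤ c * (c - 1) + 1)
    (i j : ℕ) (hij : i ≤ j) (hj : j ≤ J) : hstar n i ≤ hstar n j := by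
  apply mono_of_ratio n J _ i j hij hj
  intro m hm
  have hlog : 0 ≤ Real.log ((n : ℝ) ^ 2 + 2) :=
    Real.log_nonneg (by nlinarith [sq_nonneg (n : ℝ)])
  have hmJ : (m : ℝ) + 1 ≤ J := by exact_mod_cast hm
  rcases h with ⟨hn, h⟩ | h | ⟨c, hc, hn, hJ⟩
  · have h1 := lp_ratio2 n m hn (by
      refine le_trans (mul_le_mul_of_nonneg_right ?_ hlog) h
      linarith)
    refine le_trans (Nat.mul_le_mul_right _ ?_) h1
    have := dimP_le n
    omega
  · have hn : 0 < n := by
      have h0 : (0 : ℝ) ≤ J := Nat.cast_nonneg J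
      have : (0 : ℝ) < n := by linarith
      exact_mod_cast this
    have h1 := lp_ratio n m hn (by linarith)
    refine le_trans (Nat.mul_le_mul_right _ ?_) h1
    have := dimP_le n
    omega
  · have hcc : c * (c - 1) + c = c * c := by
      obtain ⟨t, rfl⟩ : ∃ t, c = t + 1 := ⟨c - 1, by omega⟩
      simp only [Nat.add_sub_cancel]
      ring
    exact ratio n m c hc hn (by omega)

end Pool.Agent.Results.MP_5162e9_co.InitialSegment
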